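import Pool.Agent.Helper8_BRW.Stmts

/-!
# Squad BRW, module PA: decomposition at the root
-/

set_option autoImplicit false

open MeasureTheory Set Filter

namespace BRW.H27

/-- shift the time of birth and multiply the flag -/
def shiftSt (τ : ℝ) (f : Bool) (st : St) : St := (st.1, st.2.1 + τ, st.2.2 && f)

theorem child_shift (ξ : ℤ → ℝ) (τ : ℝ) (f : Bool) (st : St) (m : ℝ × ℝ) (c : Bool) :
    child ξ (shiftSt τ f st) m c = shiftSt τ f (child ξ st m c) := by
  unfold child shiftSt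
  dsimp only
  split_ifs
  · refine Prod.ext rfl (Prod.ext ?_ rfl)
    dsimp only
    ring
  · refine Prod.ext rfl (Prod.ext ?_ ?_)
    · dsimp only
      ring
    · dsimp only
      cases st.2.2 <;> cases f <;> cases c <;> rfl
  · refine Prod.ext rfl (Prod.ext ?_ ?_)
    · dsimp only
      ring
    · dsimp only
      cases st.2.2 <;> cases f <;> cases c <;> rfl

theorem node_shift (ξ : ℤ → ℝ) (τ : ℝ) (f : Bool) (st : St) (ω : List Bool → ℝ × ℝ) :
    ∀ l : List Bool, node ξ (shiftSt τ f st) ω l = shiftSt τ f (node ξ st ω l)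
  | [] => rfl
  | c :: l => by
      show child ξ (node ξ (shiftSt τ f st) ω l) (ω l) c = _
      rw [node_shift ξ τ f st ω l, child_shift]
      rfl

theorem node_append (ξ : ℤ → ℝ) (st : St) (ω : List Bool → ℝ × ℝ) (c : Bool) :
    ∀ l : List Bool, node ξ st ω (l ++ [c]) =
      node ξ (child ξ st (ω []) c) (fun l => ω (l ++ [c])) l
  | [] => rfl
  | d :: l => by
      show child ξ (node ξ st ω (l ++ [c])) (ω (l ++ [c])) d = _
      rw [node_append ξ st ω c l]
      rfl

theorem isAlive_shift (ξ : ℤ → ℝ) (τ : ℝ) (z : ℤ) (ω : List Bool → ℝ × ℝ) (t : ℝ)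
    (l : List Bool) : IsAlive ξ (z, τ, true) ω t l ↔ IsAlive ξ (z, 0, true) ω (t - τ) l := by
  have h : ((z, τ, true) : St) = shiftSt τ true (z, 0, true) := by
    unfold shiftSt
    simp
  unfold IsAlive
  rw [h, node_shift]
  unfold shiftSt
  simp only [Bool.and_true]
  refine and_congr Iff.rfl (and_congr ?_ ?_)
  · constructor <;> intro h <;> linarith
  · constructor <;> intro h <;> linarith

theorem pos_shift (ξ : ℤ → ℝ) (τ : ℝ) (z : ℤ) (ω : List Bool → ℝ × ℝ)
    (l : List Bool) : (node ξ (z, τ, true) ω l).1 = (node ξ (z, 0, true) ω l).1 := by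
  have h : ((z, τ, true) : St) = shiftSt τ true (z, 0, true) := by
    unfold shiftSt
    simp
  rw [h, node_shift]
  rfl

theorem not_alive_false (ξ : ℤ → ℝ) (τ : ℝ) (z : ℤ) (ω : List Bool → ℝ × ℝ) (t : ℝ)
    (l : List Bool) : ¬ IsAlive ξ (z, τ, false) ω t l := by
  have h : ((z, τ, false) : St) = shiftSt τ false (z, 0, true) := by
    unfold shiftSt
    simp
  unfold IsAlive
  rw [h, node_shift]
  unfold shiftSt
  simp

theorem isAlive_append (ξ : ℤ → ℝ) (st : St) (ω : List Bool → ℝ × ℝ) (t : ℝ) (c : Bool)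
    (l : List Bool) : IsAlive ξ st ω t (l ++ [c]) ↔
      IsAlive ξ (child ξ st (ω []) c) (fun l => ω (l ++ [c])) t l := by
  unfold IsAlive
  rw [node_append]

/-- `Ev` for the tree started from the child `c`. -/
def EvC (ξ : ℤ → ℝ) (y : ℤ) (n : ℕ) (t : ℝ) (st : St) (ω : List Bool → ℝ × ℝ) : Prop :=
  ∃ l : List Bool, l.length < n ∧ IsAlive ξ st ω t l ∧ y ≤ (node ξ st ω l).1

theorem evC_true (ξ : ℤ → ℝ) (y : ℤ) (n : ℕ) (t τ : ℝ) (z : ℤ) (ω : List Bool → ℝ × ℝ) :
    EvC ξ y n t (z, τ, true) ω ↔ Ev ξ y n (t - τ) z ω := by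
  unfold EvC Ev
  simp only [isAlive_shift ξ τ z ω t, pos_shift ξ τ z ω]

theorem evC_false (ξ : ℤ → ℝ) (y : ℤ) (n : ℕ) (t τ : ℝ) (z : ℤ) (ω : List Bool → ℝ × ℝ) :
    ¬ EvC ξ y n t (z, τ, false) ω := by
  rintro ⟨l, _, h, _⟩
  exact not_alive_false ξ τ z ω t l h

theorem ev_succ (ξ : ℤ → ℝ) (y : ℤ) (n : ℕ) (t : ℝ) (z : ℤ) (ω : List Bool → ℝ × ℝ) :
    Ev ξ y (n + 1) t z ω ↔ (IsAlive ξ (z, 0, true) ω t [] ∧ y ≤ z) ∨
      ∃ c : Bool, EvC ξ y n t (child ξ (z, 0, true) (ω []) c) (fun l => ω (l ++ [c])) := by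
  constructor
  · rintro ⟨l, hl, ha, hy⟩
    rcases List.eq_nil_or_concat l with rfl | ⟨l', c, rfl⟩
    · exact Or.inl ⟨ha, hy⟩
    · rw [List.concat_eq_append] at *
      refine Or.inr ⟨c, l', ?_, ?_, ?_⟩
      · simp at hl
        exact hl
      · exact (isAlive_append ξ _ ω t c l').1 ha
      · rw [node_append] at hy
        exact hy
  · rintro (⟨ha, hy⟩ | ⟨c, l, hl, ha, hy⟩)
    · exact ⟨[], Nat.succ_pos n, ha, hy⟩
    · refine ⟨l ++ [c], ?_, ?_, ?_⟩
      · simp
        exact hl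
      · exact (isAlive_append ξ _ ω t c l).2 ha
      · rw [node_append]
        exact hy

/-- (PA) decomposition at the root. -/
theorem pa : PAStmt := by
  intro ξ y n t z ω
  rw [ev_succ]
  have h0 : (IsAlive ξ (z, 0, true) ω t [] ∧ y ≤ z) ↔
      (0 ≤ t ∧ t < (ω []).1 / (1 + ξ z) ∧ y ≤ z) := by
    unfold IsAlive node
    simp [and_assoc]
  rw [h0]
  refine or_congr Iff.rfl ?_
  by_cases h1 : (ω []).2 * (1 + ξ z) < ξ z
  · have hc : ∀ c, child ξ (z, 0, true) (ω []) c = (z, (ω []).1 / (1 + ξ z), true) := by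
      intro c
      unfold child
      simp [h1]
    have h2 : ¬ ξ z ≤ (ω []).2 * (1 + ξ z) := not_le.2 h1
    have h3 : ¬ ξ z + 1 / 2 ≤ (ω []).2 * (1 + ξ z) := by linarith
    simp only [hc, evC_true, h1, h2, h3, true_and, false_and, or_false]
    constructor
    · rintro ⟨c, hc⟩
      cases c
      · exact Or.inl hc
      · exact Or.inr hc
    · rintro (h | h)
      · exact ⟨false, h⟩
      · exact ⟨true, h⟩
  · by_cases h2 : (ω []).2 * (1 + ξ z) < ξ z + 1 / 2
    · have hc : ∀ c, child ξ (z, 0, true) (ω []) c = (z + 1, (ω []).1 / (1 + ξ z), !c) := by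
        intro c
        unfold child
        simp only [h1, h2, if_true, if_false, Bool.true_and, zero_add]
      have h3 : ¬ ξ z + 1 / 2 ≤ (ω []).2 * (1 + ξ z) := not_le.2 h2
      simp only [hc, h1, h2, h3, not_lt.1 h1, true_and, false_and, or_false, false_or]
      constructor
      · rintro ⟨c, hc⟩
        cases c
        · exact (evC_true ξ y n t _ (z + 1) _).1 hc
        · exact absurd hc (evC_false ξ y n t _ (z + 1) _)
      · intro h
        exact ⟨false, (evC_true ξ y n t _ (z + 1) _).2 h⟩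
    · have hc : ∀ c, child ξ (z, 0, true) (ω []) c = (z - 1, (ω []).1 / (1 + ξ z), !c) := by
        intro c
        unfold child
        simp only [h1, h2, if_false, Bool.true_and, zero_add]
      simp only [hc, h1, h2, not_lt.1 h2, true_and, false_and, and_false, false_or]
      constructor
      · rintro ⟨c, hc⟩
        cases c
        · exact (evC_true ξ y n t _ (z - 1) _).1 hc
        · exact absurd hc (evC_false ξ y n t _ (z - 1) _)
      · intro h
        exact ⟨false, (evC_true ξ y n t _ (z - 1) _).2 h⟩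

end BRW.H27
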