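import Pool.Agent.Helper8_BRW.Stmts

/-!
# Squad BRW, module PM: joint measurability
-/

set_option autoImplicit false

open MeasureTheory Set Filter

namespace BRW.H27

theorem measurable_child (ξ : ℤ → ℝ) (c : Bool) :
    Measurable (fun q : St × (ℝ × ℝ) => child ξ q.1 q.2 c) := by
  have hξ : Measurable (fun q : St × (ℝ × ℝ) => ξ q.1.1) :=
    (measurable_of_countable ξ).comp (measurable_fst.comp measurable_fst)
  have hr : Measurable (fun q : St × (ℝ × ℝ) => q.2.2 * (1 + ξ q.1.1)) :=
    (measurable_snd.comp measurable_snd).mul (measurable_const.add hξ)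
  have hp : Measurable (fun q : St × (ℝ × ℝ) => q.1.1) := measurable_fst.comp measurable_fst
  have ht : Measurable (fun q : St × (ℝ × ℝ) => q.1.2.1 + q.2.1 / (1 + ξ q.1.1)) :=
    ((measurable_fst.comp measurable_snd).comp measurable_fst).add
      ((measurable_fst.comp measurable_snd).div (measurable_const.add hξ))
  have hb : Measurable (fun q : St × (ℝ × ℝ) => q.1.2.2) :=
    (measurable_snd.comp measurable_snd).comp measurable_fst
  have hb2 : Measurable (fun q : St × (ℝ × ℝ) => (q.1.2.2 && !c)) :=
    (measurable_of_countable (fun b : Bool => (b && !c))).comp hb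
  unfold child
  refine Measurable.ite (measurableSet_lt hr hξ) (hp.prodMk (ht.prodMk hb)) ?_
  refine Measurable.ite (measurableSet_lt hr (hξ.add measurable_const)) ?_ ?_
  · exact ((measurable_of_countable (fun p : ℤ => p + 1)).comp hp).prodMk (ht.prodMk hb2)
  · exact ((measurable_of_countable (fun p : ℤ => p - 1)).comp hp).prodMk (ht.prodMk hb2)

theorem measurable_node (ξ : ℤ → ℝ) (st : St) : ∀ l : List Bool,
    Measurable (fun ω : List Bool → ℝ × ℝ => node ξ st ω l)
  | [] => measurable_const
  | c :: l => (measurable_child ξ c).comp ((measurable_node ξ st l).prodMk (measurable_pi_apply l))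

theorem measurableSet_alive (ξ : ℤ → ℝ) (y : ℤ) (st : St) (l : List Bool) :
    MeasurableSet {q : ℝ × (List Bool → ℝ × ℝ) | IsAlive ξ st q.2 q.1 l ∧
      y ≤ (node ξ st q.2 l).1} := by
  have hn : Measurable (fun q : ℝ × (List Bool → ℝ × ℝ) => node ξ st q.2 l) :=
    (measurable_node ξ st l).comp measurable_snd
  have hb : Measurable (fun q : ℝ × (List Bool → ℝ × ℝ) => (node ξ st q.2 l).2.2) :=
    (measurable_snd.comp measurable_snd).comp hn
  have ht : Measurable (fun q : ℝ × (List Bool → ℝ × ℝ) => (node ξ st q.2 l).2.1) :=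
    (measurable_fst.comp measurable_snd).comp hn
  have hp : Measurable (fun q : ℝ × (List Bool → ℝ × ℝ) => (node ξ st q.2 l).1) :=
    measurable_fst.comp hn
  have hξ : Measurable (fun q : ℝ × (List Bool → ℝ × ℝ) => ξ (node ξ st q.2 l).1) :=
    (measurable_of_countable ξ).comp hp
  have he : Measurable (fun q : ℝ × (List Bool → ℝ × ℝ) => (q.2 l).1) :=
    measurable_fst.comp ((measurable_pi_apply l).comp measurable_snd)
  unfold IsAlive
  refine MeasurableSet.inter (MeasurableSet.inter ?_ (MeasurableSet.inter ?_ ?_)) ?_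
  · exact hb (measurableSet_singleton true)
  · exact measurableSet_le ht measurable_fst
  · exact measurableSet_lt measurable_fst (ht.add (he.div (measurable_const.add hξ)))
  · exact hp (MeasurableSet.of_discrete (s := {p : ℤ | y ≤ p}))

/-- (PM) joint measurability. -/
theorem pm : PMStmt := by
  intro ξ y n z
  have : {q : ℝ × (List Bool → ℝ × ℝ) | Ev ξ y n q.1 z q.2} =
      ⋃ l ∈ {l : List Bool | l.length < n},
        {q : ℝ × (List Bool → ℝ × ℝ) | IsAlive ξ (z, 0, true) q.2 q.1 l ∧
          y ≤ (node ξ (z, 0, true) q.2 l).1} := by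
    ext q
    simp only [Ev, mem_setOf_eq, mem_iUnion, exists_prop]
  rw [this]
  exact MeasurableSet.biUnion (Set.to_countable _) (fun l _ => measurableSet_alive ξ y _ l)

end BRW.H27
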